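import Mathlib
import Pool.Agent.MP_9e8696_an.H67.Final

/-!
A telescoping inequality for pairs of homogeneous functions on the cube.
-/

set_option linter.unusedSectionVars false

namespace Pool.Agent.MP_9e8696_an.H7

open Finset H67
open scoped BigOperators

variable {ι : Type*} [Fintype ι] [DecidableEq ι]

/-- The function on the cube with Fourier coefficients `a`. -/
def ev (a : Finset ι → ℝ) (x : ι → Bool) : ℝ := ∑ S, a S * chi S x

/-- Homogeneity of degree `d`. -/
def Hom (a : Finset ι → ℝ) (d : ℕ) : Prop := ∀ S, S.card ≠ d → a S = 0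

lemma chi_update_notMem (S : Finset ι) (j : ι) (hj : j ∉ S) (x : ι → Bool) (c : Bool) :
    chi S (Function.update x j c) = chi S x := by
  unfold chi
  refine prod_congr rfl fun i hi => ?_
  rw [Function.update_of_ne (ne_of_mem_of_not_mem hi hj)]

lemma chi_eq_mul (S : Finset ι) (j : ι) (hj : j ∈ S) (x : ι → Bool) :
    chi S x = sg (x j) * chi (S \ {j}) x := by
  unfold chi
  rw [sdiff_singleton_eq_erase, mul_prod_erase S (fun i => sg (x i)) hj]

lemma ev_sh (T : Finset ι) (a : Finset ι → ℝ) (x : ι → Bool) :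
    ev (sh T a) x = ∑ S, if T ⊆ S then a S * chi (S \ T) x else 0 :=
  F_sh T a fun i => sg (x i)

lemma ev_split (a : Finset ι → ℝ) (j : ι) (x : ι → Bool) :
    ev a x = ev (del {j} a) x + sg (x j) * ev (sh {j} a) x := by
  rw [ev_sh, ev, ev, mul_sum, ← sum_add_distrib]
  refine sum_congr rfl fun S _ => ?_
  by_cases hj : j ∈ S
  · simp only [del, disjoint_singleton_right, hj, not_true_eq_false, if_false,
      singleton_subset_iff, if_true]
    rw [chi_eq_mul S j hj]; ring
  · simp [del, hj]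

lemma ev_update_of (a : Finset ι → ℝ) (j : ι) (ha : ∀ S, j ∈ S → a S = 0) (x : ι → Bool)
    (c : Bool) : ev a (Function.update x j c) = ev a x := by
  unfold ev
  refine sum_congr rfl fun S _ => ?_
  by_cases hj : j ∈ S
  · simp [ha S hj]
  · rw [chi_update_notMem S j hj]

lemma ev_sh_update (T : Finset ι) (a : Finset ι → ℝ) (j : ι) (hj : j ∈ T) (x : ι → Bool)
    (c : Bool) : ev (sh T a) (Function.update x j c) = ev (sh T a) x := by
  refine ev_update_of _ j (fun S hS => ?_) x c
  have : ¬ Disjoint S T := fun h => disjoint_left.1 h hS hj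
  simp [sh, this]

lemma ev_del_update (T : Finset ι) (a : Finset ι → ℝ) (j : ι) (hj : j ∈ T) (x : ι → Bool)
    (c : Bool) : ev (del T a) (Function.update x j c) = ev (del T a) x := by
  refine ev_update_of _ j (fun S hS => ?_) x c
  have : ¬ Disjoint S T := fun h => disjoint_left.1 h hS hj
  simp [del, this]

lemma ev_false (a : Finset ι → ℝ) (j : ι) (x : ι → Bool) :
    ev a (Function.update x j false) = ev (del {j} a) x + ev (sh {j} a) x := by
  rw [ev_split a j, ev_sh_update _ _ j (mem_singleton_self j),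
    ev_del_update _ _ j (mem_singleton_self j)]
  simp [sg]

lemma ev_true (a : Finset ι → ℝ) (j : ι) (x : ι → Bool) :
    ev a (Function.update x j true) = ev (del {j} a) x - ev (sh {j} a) x := by
  rw [ev_split a j, ev_sh_update _ _ j (mem_singleton_self j),
    ev_del_update _ _ j (mem_singleton_self j)]
  simp [sg]
  ring

lemma expect_update (j : ι) (w : (ι → Bool) → ℝ) :
    𝔼 x, w x = 𝔼 x, (w (Function.update x j false) + w (Function.update x j true)) / 2 := by
  have h1 := expect_flip j w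
  have h2 : ∀ x : ι → Bool, (w (Function.update x j false) + w (Function.update x j true)) / 2 =
      (w x + w (flipAt j x)) / 2 := by
    intro x
    unfold flipAt
    cases hx : x j
    · have : Function.update x j false = x := by rw [← hx, Function.update_eq_self]
      rw [this]; rfl
    · have : Function.update x j true = x := by rw [← hx, Function.update_eq_self]
      rw [this, add_comm]; rfl
  simp only [h2, div_eq_mul_inv, ← expect_mul, expect_add_distrib, h1]
  ring

lemma Hom.euler {a : Finset ι → ℝ} {d : ℕ} (ha : Hom a d) (x : ι → Bool) :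
    ∑ j, sg (x j) * ev (sh {j} a) x = d * ev a x := by
  simp only [ev_sh, mul_sum]
  rw [sum_comm, ev, mul_sum]
  refine sum_congr rfl fun S _ => ?_
  have : ∀ j, sg (x j) * (if {j} ⊆ S then a S * chi (S \ {j}) x else 0) =
      if j ∈ S then a S * chi S x else 0 := by
    intro j
    by_cases hj : j ∈ S
    · simp only [singleton_subset_iff, hj, if_true]
      rw [chi_eq_mul S j hj]; ring
    · simp [hj]
  simp only [this]
  rw [← sum_filter]
  simp only [filter_mem_eq_inter, univ_inter, sum_const, nsmul_eq_mul]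
  by_cases hS : S.card = d
  · rw [hS]
  · simp [ha S hS]

/-- Integration by parts against `u v ^ 2`. -/
lemma parts {a : Finset ι → ℝ} {d : ℕ} (ha : Hom a d) (b : Finset ι → ℝ) :
    d * 𝔼 x, ev a x ^ 2 * ev b x ^ 2 =
      ∑ j, 𝔼 x, (ev (sh {j} a) x ^ 2 * ev (del {j} b) x ^ 2 +
        ev (sh {j} a) x ^ 2 * ev (sh {j} b) x ^ 2 +
        2 * (ev (sh {j} a) x * ev (del {j} a) x * ev (sh {j} b) x * ev (del {j} b) x)) := by
  have h1 : ∀ x, d * (ev a x ^ 2 * ev b x ^ 2) =
      ∑ j, sg (x j) * ev (sh {j} a) x * (ev a x * ev b x ^ 2) := by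
    intro x
    rw [← sum_mul, ha.euler]; ring
  rw [mul_expect]
  simp only [h1]
  rw [expect_sum_comm]
  refine sum_congr rfl fun j _ => ?_
  rw [expect_update j]
  refine expect_congr rfl fun x _ => ?_
  simp only [ev_false a, ev_true a, ev_false b, ev_true b,
    ev_sh_update _ _ j (mem_singleton_self j), Function.update_self, sg]
  simp only [Bool.false_eq_true, if_false, if_true]
  ring

lemma fc_mul_eq_zero {a b : Finset ι → ℝ} {d e : ℕ} (ha : Hom a d) (hb : Hom b e)
    (S : Finset ι) (hS : d + e < S.card) : fc (fun x => ev a x * ev b x) S = 0 := by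
  unfold fc ev
  have e0 : ∀ x : ι → Bool, (∑ T, a T * chi T x) * (∑ U, b U * chi U x) * chi S x =
      ∑ T, ∑ U, a T * chi T x * (b U * chi U x) * chi S x := by
    intro x
    rw [sum_mul_sum, sum_mul]
    exact sum_congr rfl fun T _ => sum_mul _ _ _
  simp only [e0, expect_sum_comm]
  refine sum_eq_zero fun T _ => sum_eq_zero fun U _ => ?_
  have : ∀ x : ι → Bool, a T * chi T x * (b U * chi U x) * chi S x =
      a T * b U * (chi (symmDiff T U) x * chi S x) := by
    intro x
    rw [← chi_mul]; ring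
  simp only [this, ← mul_expect, expect_chi_mul]
  split_ifs with h
  · by_cases hT : T.card = d
    · by_cases hU : U.card = e
      · exfalso
        have h1 : (symmDiff T U).card ≤ (T ∪ U).card := card_le_card symmDiff_subset_union
        have h2 := card_union_le T U
        rw [h] at h1
        omega
      · simp [hb U hU]
    · simp [ha T hT]
  · simp

/-- The degree bound for a product. -/
lemma degree_bound {a b : Finset ι → ℝ} {d e : ℕ} (ha : Hom a d) (hb : Hom b e) :
    ∑ j, 𝔼 x, (ev (sh {j} a) x * ev (del {j} b) x + ev (del {j} a) x * ev (sh {j} b) x) ^ 2 ≤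
      ((d : ℝ) + e) * (𝔼 x, ev a x ^ 2 * ev b x ^ 2 - (𝔼 x, ev a x * ev b x) ^ 2) := by
  set w : (ι → Bool) → ℝ := fun x => ev a x * ev b x with hw
  have h1 : ∀ j, 𝔼 x, (ev (sh {j} a) x * ev (del {j} b) x +
      ev (del {j} a) x * ev (sh {j} b) x) ^ 2 = inf (fc w) j := by
    intro j
    rw [inf_fc]
    refine expect_congr rfl fun x _ => ?_
    simp only [hw, ev_false, ev_true]
    ring
  have h2 : 𝔼 x, ev a x ^ 2 * ev b x ^ 2 - (𝔼 x, ev a x * ev b x) ^ 2 = var (fc w) := by
    rw [var_fc]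
    simp only [hw, mul_pow]
  simp only [h1]
  rw [h2, sum_inf, var, mul_sum]
  refine sum_le_sum fun S _ => ?_
  by_cases hS : S = ∅
  · simp [hS]
  · rw [if_neg hS]
    by_cases h3 : d + e < S.card
    · simp [hw, fc_mul_eq_zero ha hb S h3]
    · refine mul_le_mul_of_nonneg_right ?_ (sq_nonneg _)
      exact_mod_cast not_lt.1 h3

/-- One step of the flow. -/
lemma step {a b : Finset ι → ℝ} {d e : ℕ} (ha : Hom a d) (hb : Hom b e) :
    ∑ j, 𝔼 x, ev (sh {j} a) x ^ 2 * ev (del {j} b) x ^ 2 +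
        ((d : ℝ) + e) * (𝔼 x, ev a x * ev b x) ^ 2 ≤
      d * 𝔼 x, ev a x ^ 2 * ev b x ^ 2 +
        ∑ j, 𝔼 x, ev (sh {j} a) x ^ 2 * ev (sh {j} b) x ^ 2 := by
  have h1 := parts ha b
  have h2 := parts hb a
  have h3 := degree_bound ha hb
  have e1 : ∀ x, ev b x ^ 2 * ev a x ^ 2 = ev a x ^ 2 * ev b x ^ 2 := fun x => mul_comm _ _
  have e2 : ∀ j x, ev (sh {j} b) x ^ 2 * ev (sh {j} a) x ^ 2 =
      ev (sh {j} a) x ^ 2 * ev (sh {j} b) x ^ 2 := fun j x => mul_comm _ _
  have e3 : ∀ j x, ev (sh {j} b) x * ev (del {j} b) x * ev (sh {j} a) x * ev (del {j} a) x =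
      ev (sh {j} a) x * ev (del {j} a) x * ev (sh {j} b) x * ev (del {j} b) x :=
    fun j x => by ring
  have e4 : ∀ j x, (ev (sh {j} a) x * ev (del {j} b) x + ev (del {j} a) x * ev (sh {j} b) x) ^ 2 =
      ev (sh {j} a) x ^ 2 * ev (del {j} b) x ^ 2 + ev (sh {j} b) x ^ 2 * ev (del {j} a) x ^ 2 +
      2 * (ev (sh {j} a) x * ev (del {j} a) x * ev (sh {j} b) x * ev (del {j} b) x) :=
    fun j x => by ring
  simp only [e1, e2, e3] at h2
  simp only [e4] at h3
  simp only [expect_add_distrib, sum_add_distrib] at h1 h2 h3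
  nlinarith

lemma del_del_singleton (i : ι) (P : Finset ι) (b : Finset ι → ℝ) :
    del P (del {i} b) = del (insert i P) b := by
  funext S
  by_cases h1 : Disjoint S P <;> by_cases h2 : i ∈ S <;> simp [del, h1, h2]

lemma del_singleton_del (i : ι) (P : Finset ι) (b : Finset ι → ℝ) :
    del {i} (del P b) = del (insert i P) b := by
  funext S
  by_cases h1 : Disjoint S P <;> by_cases h2 : i ∈ S <;> simp [del, h1, h2]

lemma expect_split (φ : (ι → Bool) → ℝ) (i : ι)
    (hφ : ∀ x c, φ (Function.update x i c) = φ x) (b : Finset ι → ℝ) :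
    𝔼 x, φ x * ev b x ^ 2 =
      𝔼 x, φ x * ev (del {i} b) x ^ 2 + 𝔼 x, φ x * ev (sh {i} b) x ^ 2 := by
  rw [expect_update i, ← expect_add_distrib]
  refine expect_congr rfl fun x _ => ?_
  simp only [hφ, ev_false, ev_true]
  ring

/-- A conditional Bessel inequality. -/
lemma bessel (φ : (ι → Bool) → ℝ) (h0 : ∀ x, 0 ≤ φ x) (P : Finset ι) :
    ∀ b : Finset ι → ℝ, (∀ i ∈ P, ∀ x c, φ (Function.update x i c) = φ x) →
      𝔼 x, φ x * ev (del P b) x ^ 2 +
        ∑ j ∈ P, 𝔼 x, φ x * ev (sh {j} (del (P.erase j) b)) x ^ 2 ≤ 𝔼 x, φ x * ev b x ^ 2 := by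
  induction P using Finset.induction_on with
  | empty => intro b _; simp [del_empty]
  | insert i P hi ih =>
    intro b hφ
    have hP : ∀ j ∈ P, ∀ x c, φ (Function.update x j c) = φ x :=
      fun j hj => hφ j (mem_insert_of_mem hj)
    have h1 := ih (del {i} b) hP
    have h2 := ih (sh {i} b) hP
    have h3 : 0 ≤ ∑ j ∈ P, 𝔼 x, φ x * ev (sh {j} (del (P.erase j) (sh {i} b))) x ^ 2 :=
      sum_nonneg fun j _ => expect_nonneg fun x _ => mul_nonneg (h0 x) (sq_nonneg _)
    have h4 : del P (sh {i} b) = sh {i} (del P b) := by rw [sh_del, if_neg hi]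
    rw [expect_split φ i (hφ i (mem_insert_self i P)) b, sum_insert hi, erase_insert hi]
    rw [del_del_singleton] at h1
    rw [h4] at h2
    have h5 : ∑ j ∈ P, 𝔼 x, φ x * ev (sh {j} (del ((insert i P).erase j) b)) x ^ 2 =
        ∑ j ∈ P, 𝔼 x, φ x * ev (sh {j} (del (P.erase j) (del {i} b))) x ^ 2 := by
      refine sum_congr rfl fun j hj => ?_
      have hij : i ≠ j := fun h => hi (h ▸ hj)
      rw [del_del_singleton, erase_insert_of_ne hij]
    rw [h5]
    linarith

lemma Hom.sh {a : Finset ι → ℝ} {d : ℕ} (ha : Hom a d) (P : Finset ι) (hP : P.card ≤ d) :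
    Hom (sh P a) (d - P.card) := by
  intro R hR
  unfold H67.sh
  split_ifs with h
  · refine ha _ ?_
    rw [card_union_of_disjoint h]
    omega
  · rfl

lemma Hom.del {a : Finset ι → ℝ} {d : ℕ} (ha : Hom a d) (P : Finset ι) : Hom (del P a) d := by
  intro R hR
  simp [H67.del, ha R hR]

/-- Double counting of pairs `j ∉ P`. -/
lemma sum_insert_pairs (p : ℕ) (g : ι → Finset ι → ℝ) :
    ∑ P ∈ powersetCard p (univ : Finset ι), ∑ j, (if j ∈ P then 0 else g j (insert j P)) =
      ∑ Q ∈ powersetCard (p + 1) (univ : Finset ι), ∑ j ∈ Q, g j Q := by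
  have e1 : ∀ P : Finset ι, ∑ j, (if j ∈ P then 0 else g j (insert j P)) =
      ∑ j ∈ univ.filter (fun j => j ∉ P), g j (insert j P) := by
    intro P
    rw [sum_filter]
    exact sum_congr rfl fun j _ => by split_ifs <;> rfl
  simp only [e1]
  rw [sum_sigma', sum_sigma']
  refine sum_bij' (fun q _ => ⟨insert q.2 q.1, q.2⟩) (fun q _ => ⟨q.1.erase q.2, q.2⟩)
    ?_ ?_ ?_ ?_ ?_
  · rintro ⟨P, j⟩ h
    simp only [mem_sigma, mem_powersetCard, subset_univ, true_and, mem_filter, mem_univ] at h ⊢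
    exact ⟨by rw [card_insert_of_notMem h.2, h.1], mem_insert_self _ _⟩
  · rintro ⟨Q, j⟩ h
    simp only [mem_sigma, mem_powersetCard, subset_univ, true_and, mem_filter, mem_univ] at h ⊢
    exact ⟨by rw [card_erase_of_mem h.2, h.1]; rfl, notMem_erase _ _⟩
  · rintro ⟨P, j⟩ h
    simp only [mem_sigma, mem_powersetCard, subset_univ, true_and, mem_filter, mem_univ] at h
    simp [erase_insert h.2]
  · rintro ⟨Q, j⟩ h
    simp only [mem_sigma, mem_powersetCard, subset_univ, true_and] at h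
    simp [insert_erase h.2]
  · rintro ⟨P, j⟩ _
    rfl

/-- The collision-free functional. -/
noncomputable def fA (a b : Finset ι → ℝ) (p : ℕ) : ℝ :=
  ∑ P ∈ powersetCard p (univ : Finset ι), 𝔼 x, ev (sh P a) x ^ 2 * ev (del P b) x ^ 2

/-- The true functional. -/
noncomputable def fB (a b : Finset ι → ℝ) (p : ℕ) : ℝ :=
  ∑ P ∈ powersetCard p (univ : Finset ι), 𝔼 x, ev (sh P a) x ^ 2 * ev b x ^ 2

/-- The gain. -/
noncomputable def fK (a b : Finset ι → ℝ) (p : ℕ) : ℝ :=
  ∑ P ∈ powersetCard p (univ : Finset ι), (𝔼 x, ev (sh P a) x * ev (del P b) x) ^ 2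

lemma ev_zero (x : ι → Bool) : ev (0 : Finset ι → ℝ) x = 0 := by simp [ev]

lemma recur {a b : Finset ι → ℝ} {d e : ℕ} (ha : Hom a d) (hb : Hom b e) (p : ℕ) (hp : p ≤ d) :
    ((p : ℝ) + 2) * fA a b (p + 1) + ((d : ℝ) - p + e) * fK a b p ≤
      ((d : ℝ) - p) * fA a b p + fB a b (p + 1) := by
  have h1 : ∀ P ∈ powersetCard p (univ : Finset ι),
      ∑ j, (if j ∈ P then 0 else
          𝔼 x, ev (sh (insert j P) a) x ^ 2 * ev (del (insert j P) b) x ^ 2) +
        ((d : ℝ) - p + e) * (𝔼 x, ev (sh P a) x * ev (del P b) x) ^ 2 ≤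
      ((d : ℝ) - p) * 𝔼 x, ev (sh P a) x ^ 2 * ev (del P b) x ^ 2 +
        ∑ j, (if j ∈ P then 0 else 𝔼 x, ev (sh (insert j P) a) x ^ 2 *
          ev (sh {j} (del ((insert j P).erase j) b)) x ^ 2) := by
    intro P hP
    have hc : P.card = p := (mem_powersetCard.1 hP).2
    have h := step (ha.sh P (hc ▸ hp)) (hb.del P)
    rw [hc, Nat.cast_sub hp] at h
    convert h using 3 with j _ j _
    · rw [sh_singleton_sh, del_singleton_del]
      split_ifs <;> simp [ev_zero]
    · rw [sh_singleton_sh]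
      split_ifs with hj
      · simp [ev_zero]
      · rw [erase_insert hj]
  have h2 := sum_le_sum h1
  rw [sum_add_distrib, sum_add_distrib, ← mul_sum, ← mul_sum,
    sum_insert_pairs p (fun _ Q => 𝔼 x, ev (sh Q a) x ^ 2 * ev (del Q b) x ^ 2),
    sum_insert_pairs p (fun j Q => 𝔼 x, ev (sh Q a) x ^ 2 *
      ev (sh {j} (del (Q.erase j) b)) x ^ 2)] at h2
  have h3 : ∑ Q ∈ powersetCard (p + 1) (univ : Finset ι),
      ∑ _j ∈ Q, 𝔼 x, ev (sh Q a) x ^ 2 * ev (del Q b) x ^ 2 = ((p : ℝ) + 1) * fA a b (p + 1) := by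
    rw [fA, mul_sum]
    refine sum_congr rfl fun Q hQ => ?_
    rw [sum_const, (mem_powersetCard.1 hQ).2, nsmul_eq_mul]
    push_cast
    ring
  have h4 : fA a b (p + 1) + ∑ Q ∈ powersetCard (p + 1) (univ : Finset ι), ∑ j ∈ Q,
      𝔼 x, ev (sh Q a) x ^ 2 * ev (sh {j} (del (Q.erase j) b)) x ^ 2 ≤ fB a b (p + 1) := by
    rw [fA, fB, ← sum_add_distrib]
    refine sum_le_sum fun Q _ => ?_
    refine bessel (fun x => ev (sh Q a) x ^ 2) (fun x => sq_nonneg _) Q b fun i hi x c => ?_
    rw [ev_sh_update Q a i hi]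
  rw [h3] at h2
  unfold fK
  unfold fA at h2 h4 ⊢
  linarith

lemma fK_nonneg (a b : Finset ι → ℝ) (p : ℕ) : 0 ≤ fK a b p := sum_nonneg fun _ _ => sq_nonneg _

lemma sh_empty (a : Finset ι → ℝ) : sh ∅ a = a := by funext S; simp [sh]

lemma fA_zero (a b : Finset ι → ℝ) : fA a b 0 = fB a b 0 := by simp [fA, fB, del_empty]

lemma fK_zero (a b : Finset ι → ℝ) : fK a b 0 = (𝔼 x, ev a x * ev b x) ^ 2 := by
  simp [fK, del_empty, sh_empty]

/-- The telescoped inequality. -/
lemma telescope {a b : Finset ι → ℝ} {d e : ℕ} (ha : Hom a d) (hb : Hom b e) (p : ℕ)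
    (hp : p + 1 ≤ d) :
    ((p : ℝ) + 2) * (fA a b (p + 1) / d.choose (p + 1)) + ((d : ℝ) + e) / d * fK a b 0 ≤
      ∑ q ∈ range (p + 2), fB a b q / d.choose q := by
  induction p with
  | zero =>
    have h := recur ha hb 0 (Nat.zero_le _)
    have hd : (0 : ℝ) < d := by exact_mod_cast hp
    rw [fA_zero] at h
    simp only [sum_range_succ, range_zero, sum_empty, Nat.choose_zero_right, zero_add,
      Nat.choose_one_right, Nat.cast_one, div_one, Nat.cast_zero, sub_zero] at h ⊢
    have : 2 * (fA a b 1 / d) + ((d : ℝ) + e) / d * fK a b 0 =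
        (2 * fA a b 1 + ((d : ℝ) + e) * fK a b 0) / d := by ring
    rw [this, div_le_iff₀ hd, add_mul (fB a b 0), div_mul_cancel₀ _ hd.ne']
    linarith
  | succ p ih =>
    have h1 := ih (by omega)
    have h := recur ha hb (p + 1) (by omega)
    have hc1 : (0 : ℝ) < d.choose (p + 1) := by exact_mod_cast Nat.choose_pos (by omega)
    have hc2 : (0 : ℝ) < d.choose (p + 1 + 1) := by exact_mod_cast Nat.choose_pos hp
    have hc : (d.choose (p + 1 + 1) : ℝ) * ((p : ℝ) + 1 + 1) =
        d.choose (p + 1) * ((d : ℝ) - (p + 1)) := by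
      have := Nat.choose_succ_right_eq d (p + 1)
      have h5 : ((d - (p + 1) : ℕ) : ℝ) = (d : ℝ) - (p + 1) := by
        rw [Nat.cast_sub (by omega)]; push_cast; ring
      rw [← h5]
      exact_mod_cast this
    have hK : 0 ≤ ((d : ℝ) - ((p + 1 : ℕ) : ℝ) + e) * fK a b (p + 1) := by
      refine mul_nonneg ?_ (fK_nonneg _ _ _)
      have : ((p + 1 : ℕ) : ℝ) ≤ d := by exact_mod_cast (by omega : p + 1 ≤ d)
      have : (0 : ℝ) ≤ e := Nat.cast_nonneg _
      linarith
    rw [sum_range_succ]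
    have h6 : (((p + 1 : ℕ) : ℝ) + 2) * (fA a b (p + 1 + 1) / d.choose (p + 1 + 1)) ≤
        ((p : ℝ) + 2) * (fA a b (p + 1) / d.choose (p + 1)) +
          fB a b (p + 1 + 1) / d.choose (p + 1 + 1) := by
      have e1 : ((p : ℝ) + 2) * (fA a b (p + 1) / d.choose (p + 1)) =
          ((d : ℝ) - (p + 1)) * fA a b (p + 1) / d.choose (p + 1 + 1) := by
        rw [eq_div_iff hc2.ne']
        field_simp
        linear_combination fA a b (p + 1) * hc
      rw [e1, ← add_div, ← mul_div_assoc]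
      refine div_le_div_of_nonneg_right ?_ hc2.le
      push_cast at h hK ⊢
      linarith
    linarith

lemma fA_top {a : Finset ι → ℝ} {d : ℕ} (ha : Hom a d) (b : Finset ι → ℝ) :
    nrm a * nrm b - ∑ j, inf a j * inf b j ≤ fA a b d := by
  have h1 : ∀ P ∈ powersetCard d (univ : Finset ι),
      𝔼 x, ev (sh P a) x ^ 2 * ev (del P b) x ^ 2 = a P ^ 2 * nrm (del P b) := by
    intro P hP
    have hc : P.card = d := (mem_powersetCard.1 hP).2
    have h := ha.sh P hc.le
    rw [hc, Nat.sub_self] at h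
    have h2 : ∀ x, ev (sh P a) x = a P := by
      intro x
      rw [ev, sum_eq_single ∅]
      · simp [sh, chi]
      · intro S _ hS
        rw [h S (by simpa using hS), zero_mul]
      · simp
    simp only [h2]
    rw [← mul_expect, ← parseval]
    rfl
  have h3 : ∀ P : Finset ι, nrm b - ∑ j ∈ P, inf b j ≤ nrm (del P b) := by
    intro P
    have h := out_le b Pᶜ
    have h4 : (∑ j, if j ∈ Pᶜ then 0 else inf b j) = ∑ i ∈ P, inf b i := by
      simp only [mem_compl, ite_not]
      rw [← sum_filter]; simp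
    have h5 : nrm b = nrm (del P b) + ∑ S, (if S ⊆ Pᶜ then 0 else b S ^ 2) := by
      unfold nrm
      rw [← sum_add_distrib]
      refine sum_congr rfl fun S _ => ?_
      unfold del
      simp only [subset_compl_iff_disjoint_right]
      split_ifs <;> simp
    linarith
  have h6 : ∀ g : Finset ι → ℝ, ∑ P, a P ^ 2 * g P =
      ∑ P ∈ powersetCard d (univ : Finset ι), a P ^ 2 * g P := by
    intro g
    refine (sum_subset (subset_univ _) fun P _ hP => ?_).symm
    rw [ha P (by simpa [mem_powersetCard] using hP)]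
    simp
  have h7 : ∑ j, inf a j * inf b j = ∑ P, a P ^ 2 * ∑ j ∈ P, inf b j := by
    simp only [inf_eq a, sum_mul]
    rw [sum_comm]
    refine sum_congr rfl fun P _ => ?_
    simp only [ite_mul, zero_mul]
    rw [← sum_filter, mul_sum]
    simp
  rw [fA, sum_congr rfl h1, ← h6 (fun P => nrm (del P b)), h7]
  conv_lhs => rw [nrm, sum_mul, ← sum_sub_distrib]
  refine sum_le_sum fun P _ => ?_
  rw [← mul_sub]
  exact mul_le_mul_of_nonneg_left (h3 P) (sq_nonneg _)

lemma sum_nrm_sh {a : Finset ι → ℝ} {d : ℕ} (ha : Hom a d) (p : ℕ) :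
    ∑ P ∈ powersetCard p (univ : Finset ι), nrm (sh P a) = d.choose p * nrm a := by
  simp only [nrm_sh]
  rw [sum_comm, nrm, mul_sum]
  refine sum_congr rfl fun S _ => ?_
  rw [← sum_filter, sum_const, nsmul_eq_mul]
  by_cases hS : S.card = d
  · have : (powersetCard p (univ : Finset ι)).filter (fun P => P ⊆ S) = powersetCard p S := by
      ext P
      simp [mem_powersetCard, and_comm]
    rw [this, card_powersetCard, hS]
  · simp [ha S hS]

/-- The pair inequality. -/
lemma pair {a b : Finset ι → ℝ} {d e : ℕ} (hd : 1 ≤ d) (ha : Hom a d) (hb : Hom b e) :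
    ((d : ℝ) + 1) * (nrm a * nrm b - ∑ j, inf a j * inf b j) +
        ((d : ℝ) + e) / d * (𝔼 x, ev a x * ev b x) ^ 2 ≤
      ∑ q ∈ range (d + 1), fB a b q / d.choose q := by
  obtain ⟨p, rfl⟩ : ∃ p, d = p + 1 := ⟨d - 1, by omega⟩
  have h := telescope ha hb p le_rfl
  have h2 := fA_top ha b
  rw [Nat.choose_self, Nat.cast_one, div_one, fK_zero] at h
  have h3 : (((p + 1 : ℕ) : ℝ) + 1) = (p : ℝ) + 2 := by push_cast; ring
  rw [h3]
  have h4 := mul_le_mul_of_nonneg_left h2 (by positivity : (0 : ℝ) ≤ (p : ℝ) + 2)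
  linarith

/-- The completion inequality in coefficient form. -/
lemma completion {κ : Type*} [Fintype κ] {a : Finset ι → ℝ} {d : ℕ} (hd : 1 ≤ d) (ha : Hom a d)
    (b : κ → Finset ι → ℝ) (e : κ → ℕ) (hb : ∀ k, Hom (b k) (e k)) (K : ℝ)
    (hK : ∀ x, ev a x ^ 2 + ∑ k, ev (b k) x ^ 2 ≤ K) :
    nrm a * (nrm a + ∑ k, nrm (b k)) + 2 * nrm a ^ 2 / (d + 1) ≤
      K * nrm a + ∑ j, inf a j * (inf a j + ∑ k, inf (b k) j) := by
  have hd0 : (0 : ℝ) < d := by exact_mod_cast hd
  have h1 := pair hd ha ha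
  have h2 : ∀ k, ((d : ℝ) + 1) * (nrm a * nrm (b k) - ∑ j, inf a j * inf (b k) j) ≤
      ∑ q ∈ range (d + 1), fB a (b k) q / d.choose q := by
    intro k
    have h := pair hd ha (hb k)
    have : 0 ≤ ((d : ℝ) + e k) / d * (𝔼 x, ev a x * ev (b k) x) ^ 2 := by positivity
    linarith
  have h3 := sum_le_sum fun k (_ : k ∈ (univ : Finset κ)) => h2 k
  have h4 : 𝔼 x, ev a x * ev a x = nrm a := by
    rw [← parseval]
    exact expect_congr rfl fun x _ => by rw [sq]; rfl
  have h5 : ((d : ℝ) + d) / d = 2 := by field_simp; ring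
  rw [h4, h5] at h1
  have h6 : ∀ q ∈ range (d + 1),
      fB a a q / d.choose q + ∑ k, fB a (b k) q / d.choose q ≤ K * nrm a := by
    intro q hq
    have hc : (0 : ℝ) < d.choose q := by
      exact_mod_cast Nat.choose_pos (by simpa [Nat.lt_succ_iff] using hq)
    rw [← sum_div, ← add_div, div_le_iff₀ hc, mul_assoc, mul_comm (nrm a), ← sum_nrm_sh ha q,
      mul_sum]
    unfold fB
    rw [sum_comm, ← sum_add_distrib]
    refine sum_le_sum fun P _ => ?_
    rw [← expect_sum_comm, ← expect_add_distrib, ← parseval, mul_expect]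
    refine expect_le_expect fun x _ => ?_
    rw [← mul_sum, ← mul_add, mul_comm K]
    exact mul_le_mul_of_nonneg_left (hK x) (sq_nonneg _)
  have h7 := sum_le_sum h6
  rw [sum_add_distrib, sum_comm, sum_const, card_range, nsmul_eq_mul] at h7
  rw [← mul_sum, sum_sub_distrib, ← mul_sum, sum_comm] at h3
  simp only [mul_add, sum_add_distrib, mul_sum]
  simp only [mul_sum] at h3
  have hd1 : (0 : ℝ) < (d : ℝ) + 1 := by positivity
  have h8 : 2 * nrm a ^ 2 / ((d : ℝ) + 1) ≤ K * nrm a + (∑ j, inf a j * inf a j +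
      ∑ j, ∑ k, inf a j * inf (b k) j) - (nrm a * nrm a + ∑ k, nrm a * nrm (b k)) := by
    rw [div_le_iff₀ hd1]
    push_cast at h7
    nlinarith
  linarith

end Pool.Agent.MP_9e8696_an.H7
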